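import Pool.Agent.H56.JW.Targets

/-!
# Row FDP of the board jwq_modules: degrees of the outer graph at packed vertices
-/

set_option autoImplicit false

open Finset

namespace Pool.Agent.H58.JWQ

open Pool.Agent.H56.JW

section
variable {V : Type} [Fintype V] [DecidableEq V]

/-- the number of neighbours through the edges of `E` -/
theorem edeg_eq {G : SimpleGraph V} {E : Finset (Sym2 V)} (hE : ∀ e ∈ E, e ∈ G.edgeSet) (y : V) :
    {v | s(y, v) ∈ E}.ncard = edeg E y := by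
  classical
  unfold edeg
  rw [← Set.ncard_coe_finset]
  have h1 : ((E.filter fun e => y ∈ e : Finset (Sym2 V)) : Set (Sym2 V)) =
      (fun v => s(y, v)) '' {v | s(y, v) ∈ E} := by
    ext e
    rw [Finset.mem_coe, Finset.mem_filter]
    constructor
    · rintro ⟨he, hy⟩
      obtain ⟨v, rfl⟩ := Sym2.mem_iff_exists.mp hy
      exact ⟨v, he, rfl⟩
    · rintro ⟨v, hv, rfl⟩
      exact ⟨hv, Sym2.mem_mk_left y v⟩
  rw [h1, Set.ncard_image_of_injective]
  intro u v huv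
  exact Sym2.congr_right.mp huv

theorem nbs_sub {G L : SimpleGraph V} {X : Finset V} (hL : LinF G X L) (D : Finset V) :
    nbs L D ⊆ X := by
  classical
  intro s hs
  unfold nbs at hs
  rw [Finset.mem_filter] at hs
  obtain ⟨_, _, x, _, hx⟩ := hs
  exact (hL.inX s x hx).1

theorem mem_sup_P {G L : SimpleGraph V} {X : Finset V} {lab : V → V} (hL : LinF G X L)
    {κ : Cn V} (hκ : κ.Valid G L X lab) {y : V} (hy : y ∉ X) (h : y ∈ κ.D ∪ nbs L κ.D ∪ κ.P) :
    y ∈ κ.P := by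
  rw [Finset.mem_union, Finset.mem_union] at h
  rcases h with (h | h) | h
  · exact absurd (hκ.DX h) hy
  · exact absurd (nbs_sub hL _ h) hy
  · exact h

/-- an edge of a connector at a packed vertex -/
theorem mem_P_of_edge {G L : SimpleGraph V} {X : Finset V} {lab : V → V} (hL : LinF G X L)
    {κ : Cn V} (hκ : κ.Valid G L X lab) {y v : V} (hy : y ∉ X) {i : Fin 3}
    (h : s(y, v) ∈ κ.E i) : y ∈ κ.P :=
  mem_sup_P hL hκ hy (hκ.sup i y v h)

theorem edeg_zero {E : Finset (Sym2 V)} {y : V} (h : ∀ v, s(y, v) ∉ E) : edeg E y = 0 := by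
  classical
  unfold edeg
  rw [Finset.card_eq_zero, Finset.filter_eq_empty_iff]
  intro e he hy
  obtain ⟨v, rfl⟩ := Sym2.mem_iff_exists.mp hy
  exact h v he

open Classical in
theorem nbr_iff {G L : SimpleGraph V} {X : Finset V} {lab : V → V} {q : ℕ} {T1 T2 : Finset (Cn V)}
    {at' : V → Fin 2 → V} (hL : LinF G X L) (hS : Sel G L X lab q T1 T2 at') (J : Finset (Cn V))
    {y : V} (hy : y ∉ X) (v : V) :
    (FG L X T1 T2 J at').Adj y v ↔ (∃ κ ∈ T1 ∪ T2, s(y, v) ∈ κ.E (stt T1 J κ)) ∨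
      ∃ j, Opn L X v j ∧ v ∉ iso (T1 ∪ T2) ∧ at' v j = y := by
  classical
  unfold FG
  rw [SimpleGraph.fromEdgeSet_adj]
  constructor
  · rintro ⟨h, hne⟩
    rcases h with (h | h) | h
    · exact absurd (hL.inX y v h.1).1 hy
    · exact Or.inl h
    · obtain ⟨x, j, h1, h2, h3⟩ := h
      right
      rcases Sym2.eq_iff.mp h3 with ⟨h4, _⟩ | ⟨h4, h5⟩
      · rw [h4] at hy
        exact absurd h1.1 hy
      · rw [h5]
        exact ⟨j, h1, h2, h4.symm⟩
  · rintro (h | ⟨j, h1, h2, h3⟩)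
    · refine ⟨Or.inl (Or.inr h), ?_⟩
      obtain ⟨κ, hκ, he⟩ := h
      have hadj : G.Adj y v := (hS.val κ hκ).adj _ _ he
      exact hadj.ne
    · refine ⟨Or.inr ⟨v, j, h1, h2, ?_⟩, ?_⟩
      · rw [h3, Sym2.eq_swap]
      · rintro rfl
        exact hy h1.1

end

theorem pf_FDP : T_FDP := by
  classical
  intro V _ _ G L X lab q T1 T2 at' hL hS J hJ y hy
  have hns : (FG L X T1 T2 J at').neighborSet y =
      {v | (∃ κ ∈ T1 ∪ T2, s(y, v) ∈ κ.E (stt T1 J κ)) ∨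
        ∃ j, Opn L X v j ∧ v ∉ iso (T1 ∪ T2) ∧ at' v j = y} := by
    ext v
    rw [SimpleGraph.mem_neighborSet]
    exact nbr_iff hL hS J hy v
  unfold dg
  rw [hns]
  by_cases hat : ∃ e : V × Fin 2, Opn L X e.1 e.2 ∧ e.1 ∉ iso (T1 ∪ T2) ∧ at' e.1 e.2 = y
  · -- an attachment
    obtain ⟨⟨e, j⟩, h1, h2, h3⟩ := hat
    dsimp only at h1 h2 h3
    have hnP : ∀ κ ∈ T1 ∪ T2, ∀ v i, s(y, v) ∉ κ.E i := by
      intro κ hκ v i hv
      have h4 := mem_P_of_edge hL (hS.val κ hκ) hy hv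
      rw [← h3] at h4
      exact hS.at3 e j h1 κ hκ h4
    have hs1 : {v | (∃ κ ∈ T1 ∪ T2, s(y, v) ∈ κ.E (stt T1 J κ)) ∨
        ∃ j, Opn L X v j ∧ v ∉ iso (T1 ∪ T2) ∧ at' v j = y} = {e} := by
      ext v
      constructor
      · rintro (⟨κ, hκ, h⟩ | ⟨j', h4, _, h6⟩)
        · exact absurd h (hnP κ hκ v _)
        · exact (hS.at2 v j' e j h4 h1 (h6.trans h3.symm)).1
      · intro hv
        rw [Set.mem_singleton_iff] at hv
        rw [hv]
        exact Or.inr ⟨j, h1, h2, h3⟩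
    have hs2 : (univ.filter fun e : V × Fin 2 => Opn L X e.1 e.2 ∧ e.1 ∉ iso (T1 ∪ T2) ∧
        at' e.1 e.2 = y) = {(e, j)} := by
      ext ⟨e', j'⟩
      rw [Finset.mem_filter, Finset.mem_singleton]
      constructor
      · rintro ⟨_, h4, _, h6⟩
        have h7 := hS.at2 e' j' e j h4 h1 (h6.trans h3.symm)
        rw [h7.1, h7.2]
      · intro h
        rw [Prod.mk.injEq] at h
        rw [h.1, h.2]
        exact ⟨Finset.mem_univ _, h1, h2, h3⟩
    have hs3 : ∑ κ ∈ T1 ∪ T2, edeg (κ.E (stt T1 J κ)) y = 0 := by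
      apply Finset.sum_eq_zero
      intro κ hκ
      exact edeg_zero fun v => hnP κ hκ v _
    rw [hs1, hs3, hs2, Set.ncard_singleton, Finset.card_singleton]
    exact ⟨rfl, le_rfl⟩
  · have hs2 : (univ.filter fun e : V × Fin 2 => Opn L X e.1 e.2 ∧ e.1 ∉ iso (T1 ∪ T2) ∧
        at' e.1 e.2 = y) = ∅ := by
      rw [Finset.filter_eq_empty_iff]
      intro e _ he
      exact hat ⟨e, he⟩
    rw [hs2, Finset.card_empty, add_zero]
    by_cases hk : ∃ κ ∈ T1 ∪ T2, y ∈ κ.P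
    · obtain ⟨κ, hκ, hyκ⟩ := hk
      have hoth : ∀ κ' ∈ T1 ∪ T2, κ' ≠ κ → ∀ v i, s(y, v) ∉ κ'.E i := by
        intro κ' hκ' hne v i hv
        have h4 := mem_P_of_edge hL (hS.val κ' hκ') hy hv
        have h5 := hS.dis κ' hκ' κ hκ hne
        rw [Finset.disjoint_left] at h5
        exact h5 (Finset.mem_union_right _ h4) (Finset.mem_union_right _ hyκ)
      have hs1 : {v | (∃ κ ∈ T1 ∪ T2, s(y, v) ∈ κ.E (stt T1 J κ)) ∨
          ∃ j, Opn L X v j ∧ v ∉ iso (T1 ∪ T2) ∧ at' v j = y} =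
          {v | s(y, v) ∈ κ.E (stt T1 J κ)} := by
        ext v
        constructor
        · rintro (⟨κ', hκ', h⟩ | ⟨j', h4, h5, h6⟩)
          · by_cases hkk : κ' = κ
            · rw [← hkk]
              exact h
            · exact absurd h (hoth κ' hκ' hkk v _)
          · exact absurd ⟨(v, j'), h4, h5, h6⟩ hat
        · intro hv
          exact Or.inl ⟨κ, hκ, hv⟩
      have hs3 : ∑ κ' ∈ T1 ∪ T2, edeg (κ'.E (stt T1 J κ')) y = edeg (κ.E (stt T1 J κ)) y := by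
        apply Finset.sum_eq_single_of_mem κ hκ
        intro κ' hκ' hne
        exact edeg_zero fun v => hoth κ' hκ' hne v _
      rw [hs1, hs3, edeg_eq ((hS.val κ hκ).adj _) y]
      exact ⟨rfl, (hS.val κ hκ).dP _ y hyκ⟩
    · have hno : ∀ κ ∈ T1 ∪ T2, ∀ v i, s(y, v) ∉ κ.E i := fun κ hκ v i hv =>
        hk ⟨κ, hκ, mem_P_of_edge hL (hS.val κ hκ) hy hv⟩
      have hs1 : {v | (∃ κ ∈ T1 ∪ T2, s(y, v) ∈ κ.E (stt T1 J κ)) ∨
          ∃ j, Opn L X v j ∧ v ∉ iso (T1 ∪ T2) ∧ at' v j = y} = ∅ := by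
        rw [Set.eq_empty_iff_forall_notMem]
        rintro v (⟨κ', hκ', h⟩ | ⟨j', h4, h5, h6⟩)
        · exact hno κ' hκ' v _ h
        · exact hat ⟨(v, j'), h4, h5, h6⟩
      have hs3 : ∑ κ ∈ T1 ∪ T2, edeg (κ.E (stt T1 J κ)) y = 0 := by
        apply Finset.sum_eq_zero
        intro κ hκ
        exact edeg_zero fun v => hno κ hκ v _
      rw [hs1, hs3, Set.ncard_empty]
      exact ⟨rfl, Nat.zero_le _⟩

end Pool.Agent.H58.JWQ
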