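import Pool.Agent.H58.JWQ.FDP

/-!
# Row FP of the board jwq_modules: the parity correction
-/

set_option autoImplicit false

open Finset

namespace Pool.Agent.H58.JWQ

open Pool.Agent.H56.JW
open Pool.Agent.H44.HC (Link ends)

section
variable {V : Type} [Fintype V] [DecidableEq V]

/-- the packed vertices with label `c` -/
def Sc (X : Finset V) (lab : V → V) (c : V) : Finset V := univ.filter fun w => w ∉ X ∧ lab w = c

theorem mem_Sc {X : Finset V} {lab : V → V} {c w : V} : w ∈ Sc X lab c ↔ w ∉ X ∧ lab w = c := by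
  unfold Sc
  rw [Finset.mem_filter]
  exact ⟨fun h => h.2, fun h => ⟨Finset.mem_univ _, h⟩⟩

theorem cls_eq (X : Finset V) (lab : V → V) (u : V) : cls X lab u = Sc X lab (lab u) := by
  classical
  ext w
  rw [mem_Sc]
  unfold cls
  rw [Finset.mem_filter]
  exact ⟨fun h => h.2, fun h => ⟨Finset.mem_univ _, h⟩⟩

theorem trm_card {X : Finset V} {lab : V → V} {F : SimpleGraph V} (h : ∀ y ∉ X, dg F y ≤ 1)
    (u : V) : (trm X lab F u).card = ∑ y ∈ Sc X lab (lab u), dg F y := by
  classical
  unfold trm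
  rw [cls_eq, Finset.card_filter]
  refine Finset.sum_congr rfl ?_
  intro y hy
  have h1 := h y (mem_Sc.mp hy).1
  split_ifs with h2
  · exact h2.symm
  · omega

theorem sum_dg_even (F : SimpleGraph V) : Even (∑ v, dg F v) := by
  classical
  have h1 : ∀ v, dg F v = F.degree v := by
    intro v
    unfold dg
    rw [Set.ncard_eq_toFinset_card', ← SimpleGraph.card_neighborFinset_eq_degree]
    rfl
  rw [Finset.sum_congr rfl fun v _ => h1 v, F.sum_degrees_eq_twice_card_edges]
  exact even_two_mul _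

end

theorem pf_FP (hX : T_FDX) (hP : T_FDP) (hT : Pool.Agent.H44.HC.T_TJ) : T_FP := by
  classical
  intro V _ _ G L X lab q T1 T2 at' hL hS
  -- at most one edge at packed vertices
  have hle : ∀ J ⊆ T2, ∀ y ∉ X, dg (FG L X T1 T2 J at') y ≤ 1 := fun J hJ y hy =>
    (hP V G L X lab q T1 T2 at' hL hS J hJ y hy).2
  -- the sums for the empty set
  set N : V → ℕ := fun c => ∑ y ∈ Sc X lab c, dg (FG L X T1 T2 ∅ at') y with hN
  set C : Finset V := (univ \ X).image lab with hC
  have hCmem : ∀ {c}, c ∈ C ↔ ∃ v, v ∉ X ∧ lab v = c := by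
    intro c
    rw [hC, Finset.mem_image]
    constructor
    · rintro ⟨v, hv, h⟩
      exact ⟨v, (Finset.mem_sdiff.mp hv).2, h⟩
    · rintro ⟨v, hv, h⟩
      exact ⟨v, Finset.mem_sdiff.mpr ⟨Finset.mem_univ _, hv⟩, h⟩
  have htot : Even (∑ c ∈ C, N c) := by
    have h1 : ∑ c ∈ C, N c = ∑ y ∈ univ \ X, dg (FG L X T1 T2 ∅ at') y := by
      rw [← Finset.sum_fiberwise_of_maps_to (s := univ \ X) (t := C) (g := lab)
        (fun y hy => Finset.mem_image_of_mem lab hy)]
      refine Finset.sum_congr rfl ?_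
      intro c _
      rw [hN]
      refine Finset.sum_congr ?_ fun _ _ => rfl
      ext y
      rw [mem_Sc, Finset.mem_filter, Finset.mem_sdiff]
      exact ⟨fun h => ⟨⟨Finset.mem_univ _, h.1⟩, h.2⟩, fun h => ⟨h.1.2, h.2⟩⟩
    have h2 := sum_dg_even (FG L X T1 T2 ∅ at')
    rw [← Finset.sum_sdiff (Finset.subset_univ X)] at h2
    have h3 : ∑ x ∈ X, dg (FG L X T1 T2 ∅ at') x = 2 * X.card := by
      rw [Finset.sum_congr rfl fun x hx =>
        hX V G L X lab q T1 T2 at' hL hS ∅ (Finset.empty_subset _) x hx]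
      rw [Finset.sum_const, smul_eq_mul, mul_comm]
    rw [h3, ← h1] at h2
    rw [Nat.even_add] at h2
    exact h2.mpr (even_two_mul _)
  set O : Finset V := C.filter fun c => Odd (N c) with hO
  have hOev : Even O.card := (Finset.even_sum_iff_even_card_odd N).mp htot
  -- a set `J` with the right parities
  have hJ : ∃ J ⊆ T2, ∀ c, Even ((if c ∈ O then 1 else 0) +
      ends (fun κ : Cn V => lab κ.a) (fun κ => lab κ.b) J c) := by
    rcases Finset.eq_empty_or_nonempty O with h0 | ⟨c0, hc0⟩
    · refine ⟨∅, Finset.empty_subset _, fun c => ?_⟩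
      rw [h0, if_neg (Finset.notMem_empty c)]
      simp [ends]
    · have hrep : ∀ c, ∃ v, c ∈ C → v ∉ X ∧ lab v = c := by
        intro c
        by_cases hc : c ∈ C
        · obtain ⟨v, hv⟩ := hCmem.mp hc
          exact ⟨v, fun _ => hv⟩
        · exact ⟨c, fun h => absurd h hc⟩
      choose rep hrep using hrep
      have hOC : ∀ c ∈ O, c ∈ C := fun c hc => (Finset.mem_filter.mp hc).1
      set fk : V → Cn V := fun c => ⟨∅, ∅, rep c, rep c0, fun _ => ∅⟩ with hfk
      set T' : Finset (Cn V) := (O.erase c0).image fk with hT'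
      have hinj : Set.InjOn fk (O.erase c0 : Set V) := by
        intro c hc c' hc' h
        have h1 : rep c = rep c' := congrArg Cn.a h
        have h2 := (hrep c (hOC c (Finset.mem_of_mem_erase hc))).2
        have h3 := (hrep c' (hOC c' (Finset.mem_of_mem_erase hc'))).2
        rw [← h2, ← h3, h1]
      obtain ⟨J, hJ1, hJ2⟩ := hT (Cn V) V (fun κ => lab κ.a) (fun κ => lab κ.b) T' T2 (by
        intro κ hκ
        rw [hT', Finset.mem_image] at hκ
        obtain ⟨c, hc, rfl⟩ := hκ
        exact hS.lk2 (rep c) (hrep c (hOC c (Finset.mem_of_mem_erase hc))).1 (rep c0)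
          (hrep c0 (hOC c0 hc0)).1)
      refine ⟨J, hJ1, fun c => ?_⟩
      have h1 := hJ2 c
      have h2 : ends (fun κ : Cn V => lab κ.a) (fun κ => lab κ.b) T' c =
          ((O.erase c0).filter fun c' => c' = c).card +
            ((O.erase c0).filter fun _ => c0 = c).card := by
        unfold ends
        congr 1
        · rw [hT', Finset.filter_image, Finset.card_image_of_injOn]
          · congr 1
            refine Finset.filter_congr ?_
            intro c' hc'
            have h3 := (hrep c' (hOC c' (Finset.mem_of_mem_erase hc'))).2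
            simp only [hfk, h3]
          · exact hinj.mono fun x hx => (Finset.mem_filter.mp hx).1
        · rw [hT', Finset.filter_image, Finset.card_image_of_injOn]
          · congr 1
            refine Finset.filter_congr ?_
            intro c' hc'
            have h3 := (hrep c0 (hOC c0 hc0)).2
            simp only [hfk, h3]
          · exact hinj.mono fun x hx => (Finset.mem_filter.mp hx).1
      have h4 : (ends (fun κ : Cn V => lab κ.a) (fun κ => lab κ.b) T' c) % 2 =
          (if c ∈ O then 1 else 0) % 2 := by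
        rw [h2]
        by_cases hc : c0 = c
        · subst hc
          rw [if_pos hc0]
          have e1 : ((O.erase c0).filter fun c' => c' = c0) = ∅ := by
            rw [Finset.filter_eq_empty_iff]
            intro c' hc' h
            exact (Finset.mem_erase.mp hc').1 h
          have e2 : ((O.erase c0).filter fun _ => c0 = c0) = O.erase c0 := by
            rw [Finset.filter_eq_self]
            intro _ _
            rfl
          rw [e1, e2, Finset.card_empty, Finset.card_erase_of_mem hc0]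
          have e3 : 0 < O.card := Finset.card_pos.mpr ⟨c0, hc0⟩
          obtain ⟨k, hk⟩ := hOev
          omega
        · have e2 : ((O.erase c0).filter fun _ => c0 = c) = ∅ := by
            rw [Finset.filter_eq_empty_iff]
            intro _ _ h
            exact hc h
          rw [e2, Finset.card_empty, Finset.filter_eq']
          by_cases hcO : c ∈ O
          · rw [if_pos (Finset.mem_erase.mpr ⟨fun h => hc h.symm, hcO⟩), if_pos hcO,
              Finset.card_singleton]
          · rw [if_neg fun h => hcO (Finset.mem_of_mem_erase h), if_neg hcO, Finset.card_empty]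
      rw [Nat.even_iff] at h1 ⊢
      omega
  obtain ⟨J, hJ1, hJ2⟩ := hJ
  refine ⟨J, hJ1, fun u hu => ?_⟩
  rw [trm_card (hle J hJ1)]
  -- the sum for `J`
  have hsum : ∀ J ⊆ T2, ∀ c, ∑ y ∈ Sc X lab c, dg (FG L X T1 T2 J at') y =
      (∑ κ ∈ T1 ∪ T2, ∑ y ∈ Sc X lab c, edeg (κ.E (stt T1 J κ)) y) +
      ∑ y ∈ Sc X lab c, (univ.filter fun e : V × Fin 2 => Opn L X e.1 e.2 ∧
        e.1 ∉ iso (T1 ∪ T2) ∧ at' e.1 e.2 = y).card := by
    intro J hJ c
    rw [Finset.sum_comm, ← Finset.sum_add_distrib]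
    refine Finset.sum_congr rfl ?_
    intro y hy
    exact (hP V G L X lab q T1 T2 at' hL hS J hJ y (mem_Sc.mp hy).1).1
  have htog : ∀ κ ∈ T1 ∪ T2, ∀ c, ((∑ y ∈ Sc X lab c, edeg (κ.E 1) y : ℕ) : ZMod 2) +
      ((∑ y ∈ Sc X lab c, edeg (κ.E 2) y : ℕ) : ZMod 2) =
      (((if lab κ.a = c then 1 else 0) + (if lab κ.b = c then 1 else 0) : ℕ) : ZMod 2) := by
    intro κ hκ c
    have hv := hS.val κ hκ
    have h1 := hv.tog c
    have h2 := (ZMod.natCast_eq_natCast_iff' _ _ 2).mpr h1
    have h3 : ∑ y ∈ Sc X lab c, (edeg (κ.E 1) y + edeg (κ.E 2) y) =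
        ∑ p ∈ κ.P.filter (fun p => lab p = c), (edeg (κ.E 1) p + edeg (κ.E 2) p) := by
      symm
      apply Finset.sum_subset
      · intro p hp
        rw [Finset.mem_filter] at hp
        exact mem_Sc.mpr ⟨hv.PX p hp.1, hp.2⟩
      · intro y hy hy2
        rw [mem_Sc] at hy
        have hyP : y ∉ κ.P := fun h => hy2 (Finset.mem_filter.mpr ⟨h, hy.2⟩)
        rw [edeg_zero fun v hv' => hyP (mem_P_of_edge hL hv hy.1 hv'),
          edeg_zero fun v hv' => hyP (mem_P_of_edge hL hv hy.1 hv'), add_zero]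
    rw [← Nat.cast_add, ← Finset.sum_add_distrib, h3]
    exact h2
  have hchar : ∀ x : ZMod 2, x + x = 0 := by decide
  have hstep : ∀ c, ((∑ κ ∈ T1 ∪ T2, ∑ y ∈ Sc X lab c, edeg (κ.E (stt T1 J κ)) y : ℕ) : ZMod 2) =
      ((∑ κ ∈ T1 ∪ T2, ∑ y ∈ Sc X lab c, edeg (κ.E (stt T1 ∅ κ)) y : ℕ) : ZMod 2) +
      (ends (fun κ : Cn V => lab κ.a) (fun κ => lab κ.b) J c : ZMod 2) := by
    intro c
    have h1 : (ends (fun κ : Cn V => lab κ.a) (fun κ => lab κ.b) J c) =
        ∑ κ ∈ T1 ∪ T2, if κ ∈ J then
          ((if lab κ.a = c then 1 else 0) + (if lab κ.b = c then 1 else 0)) else 0 := by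
      rw [Finset.sum_ite_mem, Finset.inter_eq_right.mpr (hJ1.trans Finset.subset_union_right),
        Finset.sum_add_distrib]
      unfold ends
      rw [Finset.card_filter, Finset.card_filter]
    rw [h1]
    push_cast
    rw [← Finset.sum_add_distrib]
    refine Finset.sum_congr rfl ?_
    intro κ hκ
    by_cases hκJ : κ ∈ J
    · have hκ1 : κ ∉ T1 := fun h => Finset.disjoint_left.mp hS.d12 h (hJ1 hκJ)
      have e1 : stt T1 J κ = 2 := by
        unfold stt
        rw [if_neg hκ1, if_pos hκJ]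
      have e2 : stt T1 ∅ κ = 1 := by
        unfold stt
        rw [if_neg hκ1, if_neg (Finset.notMem_empty κ)]
      rw [e1, e2, if_pos hκJ]
      have h2 := htog κ hκ c
      push_cast at h2
      rw [← h2, ← add_assoc, hchar, zero_add]
    · have e1 : stt T1 J κ = stt T1 ∅ κ := by
        unfold stt
        rw [if_neg hκJ, if_neg (Finset.notMem_empty κ)]
      rw [e1, if_neg hκJ, add_zero]
  have hfin : ((∑ y ∈ Sc X lab (lab u), dg (FG L X T1 T2 J at') y : ℕ) : ZMod 2) =
      ((N (lab u) : ℕ) : ZMod 2) +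
      (ends (fun κ : Cn V => lab κ.a) (fun κ => lab κ.b) J (lab u) : ZMod 2) := by
    rw [hN]
    dsimp only
    rw [hsum J hJ1, hsum ∅ (Finset.empty_subset _), Nat.cast_add, Nat.cast_add, hstep]
    ring
  rw [← ZMod.natCast_eq_zero_iff_even, hfin, ← Nat.cast_add, ZMod.natCast_eq_zero_iff_even]
  have h5 := hJ2 (lab u)
  have h6 : lab u ∈ O ↔ Odd (N (lab u)) := by
    rw [hO, Finset.mem_filter]
    exact ⟨fun h => h.2, fun h => ⟨hCmem.mpr ⟨u, hu, rfl⟩, h⟩⟩
  by_cases h7 : Odd (N (lab u))
  · rw [if_pos (h6.mpr h7)] at h5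
    rw [Nat.even_iff] at h5 ⊢
    rw [Nat.odd_iff] at h7
    omega
  · rw [if_neg fun h => h7 (h6.mp h)] at h5
    rw [Nat.not_odd_iff_even] at h7
    rw [Nat.even_iff] at h5 h7 ⊢
    omega

end Pool.Agent.H58.JWQ
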